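import Pool.Agent.X23.BR.Main

/-!
# The Bézout denominator and the resultant of random integer polynomials

For all `m, n ≥ 2` the proportion of the coprime pairs of integer polynomials of degrees `m` and `n`, with
coefficients in `[-H, H]` and positive leading coefficients, whose Bézout denominator equals the absolute value of
the resultant converges to `36/π⁴ = ζ(2)⁻² = 0.3695…` as `H → ∞`. In particular the limit exists and is less than
`1/2`.
-/

set_option autoImplicit false

open Polynomial Filter Topology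

namespace Pool.Agent.Results.MP_32694d_nt.LimitIs36OverPiFour

/-- `f` and `g` share no root in `ℂ` -/
def NoCommonRoot (f g : ℤ[X]) : Prop := ¬ ∃ z : ℂ, aeval z f = 0 ∧ aeval z g = 0

/-- the set of all positive integers `N` such that `N p` and `N q` have integer coefficients, where
`p, q ∈ ℚ[x]`, `p f + q g = 1`, `deg p < deg g`, `deg q < deg f` -/
def DenSet (f g : ℤ[X]) : Set ℕ :=
  {N | 0 < N ∧ ∃ p q : ℚ[X],
    p * f.map (Int.castRingHom ℚ) + q * g.map (Int.castRingHom ℚ) = 1 ∧
    p.degree < g.degree ∧ q.degree < f.degree ∧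
    ∃ P Q : ℤ[X], P.map (Int.castRingHom ℚ) = C (N : ℚ) * p ∧
      Q.map (Int.castRingHom ℚ) = C (N : ℚ) * q}

/-- the Bézout denominator `B(f, g)`: the least such `N` -/
noncomputable def BezDen (f g : ℤ[X]) : ℕ := sInf (DenSet f g)

/-- `R(f, g)`, the absolute value of the resultant -/
noncomputable def AbsRes (f g : ℤ[X]) : ℕ := (resultant f g f.natDegree g.natDegree).natAbs

/-- The set `P_k(H)` of integer polynomials of exact degree `k`, with positive leading coefficient
and all coefficients in `[-H, H]`. -/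
def PolyBox (k H : ℕ) : Set ℤ[X] :=
  {f | f.natDegree = k ∧ 0 < f.leadingCoeff ∧ ∀ i, |f.coeff i| ≤ H}

/-- `S_{m,n}(H)`: the coprime pairs -/
def SPairs (m n H : ℕ) : Set (ℤ[X] × ℤ[X]) :=
  {x | x.1 ∈ PolyBox m H ∧ x.2 ∈ PolyBox n H ∧ NoCommonRoot x.1 x.2}

/-- `E_{m,n}(H)`: the coprime pairs with `B(f, g) = R(f, g)` -/
def EPairs (m n H : ℕ) : Set (ℤ[X] × ℤ[X]) :=
  {x | x ∈ SPairs m n H ∧ BezDen x.1 x.2 = AbsRes x.1 x.2}

/-- `ρ_{m,n}(H)` -/
noncomputable def rho (m n H : ℕ) : ℝ := ((EPairs m n H).ncard : ℝ) / ((SPairs m n H).ncard : ℝ)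

/-- For all `m, n ≥ 2` the limit of `ρ_{m,n}(H)` exists and equals `36/π⁴ < 1/2`. -/
theorem result : ∀ m n : ℕ, 2 ≤ m → 2 ≤ n →
    Tendsto (fun H : ℕ => rho m n H) atTop (𝓝 (36 / Real.pi ^ 4)) ∧
      36 / Real.pi ^ 4 < 1 / 2 := by
  intro m n hm hn
  refine ⟨?_, Pool.Agent.X23.BR.limit_lt⟩
  have h : 0 < m + n := by omega
  refine (Pool.Agent.X23.BR.tendsto_ratio hm hn h).congr fun H => ?_
  unfold rho
  have e1 : (EPairs m n H).ncard = (Pool.Agent.X23.BR.EPairs m n H).ncard := rfl
  have e2 : (SPairs m n H).ncard = (Pool.Agent.X23.BR.SPairs m n H).ncard := rfl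
  rw [e1, e2, Pool.Agent.X23.BR.ncard_EPairs (by omega) (by omega) h,
    Pool.Agent.X23.BR.ncard_SPairs (by omega) (by omega)]

end Pool.Agent.Results.MP_32694d_nt.LimitIs36OverPiFour
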